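import Pool.Agent.Y17.N.Defs
import Pool.Agent.Z405.C1Ba

/-! # The character sum over the cusps for a given matrix of determinant `d q m` -/

set_option autoImplicit false
set_option linter.all false

namespace Pool.Agent.Y620.N

open Finset Pool.Agent.Z700 Pool.Agent.Y17.N
open Pool.Agent.Z405.C1B (dsr jac_congr jac_ne_zero jac_zero jac_sq local_eq local_ex local_uniq)

section gen

theorem pr_pos {P : Finset ℕ} (hP : ∀ p ∈ P, p.Prime) : 0 < pr P :=
  Finset.prod_pos fun p hp => (hP p hp).pos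

theorem dvd_pr {P : Finset ℕ} {p : ℕ} (hp : p ∈ P) : p ∣ pr P := Finset.dvd_prod_of_mem _ hp

theorem pr_dvd {P : Finset ℕ} (hP : ∀ p ∈ P, p.Prime) {n : ℕ} (h : ∀ p ∈ P, p ∣ n) : pr P ∣ n :=
  Finset.prod_primes_dvd n (fun p hp => (hP p hp).prime) h

theorem pr_dvd_int {P : Finset ℕ} (hP : ∀ p ∈ P, p.Prime) {x : ℤ} (h : ∀ p ∈ P, (p : ℤ) ∣ x) :
    (pr P : ℤ) ∣ x :=
  Int.natCast_dvd.2 (pr_dvd hP fun p hp => Int.natCast_dvd.1 (h p hp))

theorem jac_pr {P : Finset ℕ} (hP : ∀ p ∈ P, p.Prime) (x : ℤ) :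
    jacobiSym x (pr P) = ∏ p ∈ P, jacobiSym x p := by
  classical
  induction P using Finset.induction_on with
  | empty => simp [pr]
  | insert p P hp ih =>
    have h1 : pr (insert p P) = p * pr P := Finset.prod_insert hp
    rw [h1, jacobiSym.mul_right' _ (hP p (mem_insert_self _ _)).ne_zero
      (pr_pos fun q hq => hP q (mem_insert_of_mem hq)).ne', Finset.prod_insert hp,
      ih fun q hq => hP q (mem_insert_of_mem hq)]

theorem pr_sq {P : Finset ℕ} (hP : ∀ p ∈ P, p.Prime) {d : ℕ} (hd : Nat.Coprime d (pr P)) {p : ℕ}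
    (hp : p ∈ P) : ¬ p ^ 2 ∣ d * pr P := by
  classical
  have hpp := hP p hp
  have h1 : pr P = p * pr (P.erase p) := (Finset.mul_prod_erase P (fun x => x) hp).symm
  have hpd : ¬ p ∣ d := by
    intro h
    have h5 : p ∣ Nat.gcd d (pr P) := Nat.dvd_gcd h (dvd_pr hp)
    rw [hd] at h5
    exact hpp.one_lt.ne' (Nat.dvd_one.1 h5)
  rw [h1, pow_two]
  intro h
  have h3 : p ∣ d * pr (P.erase p) := by
    have h4 : p * p ∣ p * (d * pr (P.erase p)) := by
      refine h.trans (dvd_of_eq ?_)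
      ring
    exact Nat.dvd_of_mul_dvd_mul_left hpp.pos h4
  rcases (Nat.Prime.dvd_mul hpp).1 h3 with h4 | h4
  · exact hpd h4
  · rw [pr] at h4
    rw [hpp.prime.dvd_finsetProd_iff] at h4
    obtain ⟨q, hq, h5⟩ := h4
    rw [Finset.mem_erase] at hq
    exact hq.1 ((Nat.prime_dvd_prime_iff_eq hpp (hP q hq.2)).1 h5).symm

theorem jac_neg_one3 {p : ℕ} (h : p % 4 = 3) : jacobiSym (-1) p = -1 := by
  rw [jacobiSym.at_neg_one (Nat.odd_iff.2 (by omega)), ZMod.χ₄_nat_three_mod_four h]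

end gen

theorem local_eq3 {p a a' X Y : ℕ} (hp : p.Prime) (h4 : p % 4 = 3)
    (h2 : ¬ p ^ 2 ∣ a * Y + a' * X)
    (u : ℤ) (h5 : (p : ℤ) ∣ a * u + X) (h6 : (p : ℤ) ∣ a' * u - Y) (h7 : ¬ (p : ℤ) ∣ u) :
    jacobiSym u p = psq p a a' Y X := by
  have hpp := Nat.prime_iff_prime_int.1 hp
  unfold psq
  by_cases ha : p ∣ a
  · have haz : (p : ℤ) ∣ a := by exact_mod_cast ha
    have hX : p ∣ X := by
      have : (p : ℤ) ∣ X := (Int.dvd_add_right (Dvd.dvd.mul_right haz u)).1 h5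
      exact_mod_cast this
    rw [if_pos ⟨ha, hX⟩]
    have ha' : ¬ (p : ℤ) ∣ a' := by
      intro ha'
      have hY : (p : ℤ) ∣ Y := dsr (Dvd.dvd.mul_right ha' u) h6
      apply h2
      have hY' : p ∣ Y := by exact_mod_cast hY
      have ha'' : p ∣ a' := by exact_mod_cast ha'
      rw [pow_two]
      exact dvd_add (mul_dvd_mul ha hY') (mul_dvd_mul ha'' hX)
    have h8 : (p : ℤ) ∣ ((a' * Y : ℕ) : ℤ) - a' * a' * u := by
      have : ((a' * Y : ℕ) : ℤ) - a' * a' * u = -(a' * (a' * u - Y)) := by push_cast; ring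
      rw [this]
      exact (Dvd.dvd.mul_left h6 _).neg_right
    rw [jac_congr h8, jacobiSym.mul_left, jacobiSym.mul_left, jac_sq hp ha', one_mul]
  · rw [if_neg (fun h => ha h.1)]
    have haz : ¬ (p : ℤ) ∣ a := by exact_mod_cast ha
    have h8 : (p : ℤ) ∣ ((a * X : ℕ) : ℤ) - (-1) * (a * a * u) := by
      have : ((a * X : ℕ) : ℤ) - (-1) * (a * a * u) = a * (a * u + X) := by push_cast; ring
      rw [this]
      exact Dvd.dvd.mul_left h5 _
    rw [jac_congr h8, jacobiSym.mul_left, jac_neg_one3 h4, jacobiSym.mul_left,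
      jacobiSym.mul_left, jac_sq hp haz]
    ring

theorem psp_ne {p a a' Y X : ℕ} (h : psq p a a' Y X ≠ 0) : psp p a a' Y X ≠ 0 := by
  unfold psq at h
  unfold psp
  split_ifs at h ⊢ with h1
  · exact h
  · intro h3
    exact h (by rw [h3, neg_zero])

/-- the character sum, with arbitrary local symbols -/
theorem gen_c {P : Finset ℕ} (hP : ∀ p ∈ P, p.Prime) {d a a' X Y : ℕ}
    (hd : Nat.Coprime d (pr P)) (hdet : a * Y + a' * X = d * pr P) (lw : ℕ → ℤ)
    (hl : ∀ p ∈ P, ∀ u : ℤ, (p : ℤ) ∣ a * u + X → (p : ℤ) ∣ a' * u - Y → ¬ (p : ℤ) ∣ u →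
      jacobiSym u p = lw p)
    (he : ∀ p ∈ P, lw p ≠ 0 → psp p a a' Y X ≠ 0) :
    ∑ u ∈ (un (pr P)).filter (fun u : ℕ => (pr P : ℤ) ∣ (a : ℤ) * (u : ℤ) + (X : ℤ) ∧
      (pr P : ℤ) ∣ (a' : ℤ) * (u : ℤ) - (Y : ℤ)), jacobiSym u (pr P) = ∏ p ∈ P, lw p := by
  classical
  have hm := pr_pos hP
  set F := (un (pr P)).filter (fun u : ℕ => (pr P : ℤ) ∣ (a : ℤ) * (u : ℤ) + (X : ℤ) ∧
    (pr P : ℤ) ∣ (a' : ℤ) * (u : ℤ) - (Y : ℤ)) with hF
  have hdp : ∀ p ∈ P, (p : ℤ) ∣ (pr P : ℤ) := fun p hp => by exact_mod_cast dvd_pr hp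
  have h2 : ∀ p ∈ P, ¬ p ^ 2 ∣ a * Y + a' * X := fun p hp => by rw [hdet]; exact pr_sq hP hd hp
  have h3 : ∀ p ∈ P, p ∣ a * Y + a' * X := fun p hp => by
    rw [hdet]; exact Dvd.dvd.mul_left (dvd_pr hp) _
  have hmem : ∀ u ∈ F, u < pr P ∧ ∀ p ∈ P, (p : ℤ) ∣ a * (u : ℤ) + X ∧
      (p : ℤ) ∣ a' * (u : ℤ) - Y ∧ ¬ (p : ℤ) ∣ (u : ℤ) := by
    intro u hu
    rw [hF, Finset.mem_filter, un, Finset.mem_filter, Finset.mem_range] at hu
    obtain ⟨⟨hu1, hu2⟩, hu3, hu4⟩ := hu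
    refine ⟨hu1, fun p hp => ⟨(hdp p hp).trans hu3, (hdp p hp).trans hu4, fun h => ?_⟩⟩
    have h5 : p ∣ u := by exact_mod_cast h
    have h6 : p ∣ Nat.gcd u (pr P) := Nat.dvd_gcd h5 (dvd_pr hp)
    rw [hu2] at h6
    exact (hP p hp).one_lt.ne' (Nat.dvd_one.1 h6)
  have hval : ∀ u ∈ F, jacobiSym u (pr P) = ∏ p ∈ P, lw p := by
    intro u hu
    rw [jac_pr hP]
    refine Finset.prod_congr rfl fun p hp => ?_
    obtain ⟨h5, h6, h7⟩ := (hmem u hu).2 p hp
    exact hl p hp u h5 h6 h7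
  by_cases hz : ∃ p ∈ P, lw p = 0
  · obtain ⟨p, hp, hp0⟩ := hz
    have hFe : F = ∅ := by
      rw [Finset.eq_empty_iff_forall_notMem]
      intro u hu
      obtain ⟨h5, h6, h7⟩ := (hmem u hu).2 p hp
      have h8 := hl p hp u h5 h6 h7
      rw [hp0] at h8
      exact jac_ne_zero (hP p hp) h7 h8
    rw [hFe, Finset.sum_empty]
    exact (Finset.prod_eq_zero hp hp0).symm
  · push Not at hz
    have hex : ∀ p : ℕ, ∃ u : ℕ, p ∈ P → (p : ℤ) ∣ a * u + X ∧ (p : ℤ) ∣ a' * u - Y ∧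
        ¬ (p : ℤ) ∣ u := by
      intro p
      by_cases hp : p ∈ P
      · obtain ⟨u, hu⟩ := local_ex (hP p hp) (h3 p hp) (he p hp (hz p hp))
        exact ⟨u, fun _ => hu⟩
      · exact ⟨0, fun h => absurd h hp⟩
    choose f hf using hex
    obtain ⟨w, hw⟩ := Nat.chineseRemainderOfFinset f (fun p => p) P
      (fun p hp => (hP p hp).ne_zero) (by
        intro p hp q hq hpq
        exact (Nat.coprime_primes (hP p hp) (hP q hq)).2 hpq)
    set u := w % pr P with hu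
    have hup : ∀ p ∈ P, (p : ℤ) ∣ (u : ℤ) - f p := by
      intro p hp
      have h5 : u ≡ f p [MOD p] := by
        refine Nat.ModEq.trans ?_ (hw p hp)
        exact (Nat.mod_modEq w (pr P)).of_dvd (dvd_pr hp)
      have h6 := (Nat.modEq_iff_dvd.1 h5)
      have : (u : ℤ) - f p = -((f p : ℤ) - u) := by ring
      rw [this]
      exact h6.neg_right
    have hloc : ∀ p ∈ P, (p : ℤ) ∣ a * (u : ℤ) + X ∧ (p : ℤ) ∣ a' * (u : ℤ) - Y ∧
        ¬ (p : ℤ) ∣ (u : ℤ) := by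
      intro p hp
      obtain ⟨h5, h6, h7⟩ := hf p hp
      have h8 := hup p hp
      refine ⟨?_, ?_, fun h => h7 ?_⟩
      · have : (a : ℤ) * (u : ℤ) + X = a * ((u : ℤ) - f p) + (a * f p + X) := by ring
        rw [this]; exact dvd_add (Dvd.dvd.mul_left h8 _) h5
      · have : (a' : ℤ) * (u : ℤ) - Y = a' * ((u : ℤ) - f p) + (a' * f p - Y) := by ring
        rw [this]; exact dvd_add (Dvd.dvd.mul_left h8 _) h6
      · exact dsr h h8
    have huF : u ∈ F := by
      rw [hF, Finset.mem_filter, un, Finset.mem_filter, Finset.mem_range]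
      refine ⟨⟨Nat.mod_lt _ hm, ?_⟩, pr_dvd_int hP fun p hp => (hloc p hp).1,
        pr_dvd_int hP fun p hp => (hloc p hp).2.1⟩
      rw [pr]
      refine Nat.Coprime.prod_right fun p hp => ?_
      rw [Nat.coprime_comm, Nat.Prime.coprime_iff_not_dvd (hP p hp)]
      intro h
      exact (hloc p hp).2.2 (by exact_mod_cast h)
    have hFs : F = {u} := by
      rw [Finset.eq_singleton_iff_unique_mem]
      refine ⟨huF, fun v hv => ?_⟩
      obtain ⟨hv1, hv2⟩ := hmem v hv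
      have h5 : (pr P : ℤ) ∣ (v : ℤ) - u := pr_dvd_int hP fun p hp =>
        local_uniq (hP p hp) (h2 p hp) v u (hv2 p hp).1 (hv2 p hp).2.1 (hloc p hp).1
          (hloc p hp).2.1
      have h6 : v ≡ u [MOD (pr P)] := by
        rw [Nat.modEq_iff_dvd]
        have : (u : ℤ) - v = -((v : ℤ) - u) := by ring
        rw [this]; exact h5.neg_right
      have h7 : v % pr P = u % pr P := h6
      rw [Nat.mod_eq_of_lt hv1, Nat.mod_eq_of_lt (Nat.mod_lt _ hm)] at h7
      exact h7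
    rw [hFs, Finset.sum_singleton]
    exact hval u huF

theorem t_C1B : Pool.Agent.Y17.N.S_C1B := by
  classical
  intro q P hq hP d hd a a' X Y hdet
  have hqP : q ∉ P := by
    intro h
    have h1 := (hP q h).2.1
    have h3 := hq.2.1
    omega
  have hpr : pr (insert q P) = q * pr P := Finset.prod_insert hqP
  have hpp : ∀ p ∈ insert q P, p.Prime := by
    intro p hp
    rcases Finset.mem_insert.1 hp with rfl | h
    · exact hq.1
    · exact (hP p h).1
  rw [← hpr] at hd hdet ⊢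
  have h2 : ∀ p ∈ insert q P, ¬ p ^ 2 ∣ a * Y + a' * X := fun p hp => by
    rw [hdet]; exact pr_sq hpp hd hp
  have key := gen_c hpp hd hdet
    (fun p => if p = q then psq q a a' Y X else psp p a a' Y X) (fun p hp u h5 h6 h7 => ?_)
    (fun p hp h => ?_)
  · rw [key, Finset.prod_insert hqP, if_pos rfl]
    congr 1
    refine Finset.prod_congr rfl fun p hp => ?_
    rw [if_neg]
    rintro rfl
    exact hqP hp
  · by_cases h : p = q
    · rw [if_pos h]
      subst h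
      exact local_eq3 hq.1 (by have := hq.2.1; omega) (h2 _ hp) u h5 h6 h7
    · rw [if_neg h]
      have hpP : p ∈ P := (Finset.mem_insert.1 hp).resolve_left h
      exact local_eq (hP p hpP).1 (by have := (hP p hpP).2.1; omega) (h2 p hp) u h5 h6 h7
  · by_cases h' : p = q
    · simp only [if_pos h'] at h
      subst h'
      exact psp_ne h
    · simp only [if_neg h'] at h
      exact h

end Pool.Agent.Y620.N
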