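import Pool.Agent.Y17.N.Defs

/-! # Assembly of the diagonal identity -/

set_option autoImplicit false
set_option linter.all false

namespace Pool.Agent.Y620.N.D

open Finset Pool.Agent.Y17.N
open Pool.Agent.Z700 (pr un psp loc sq7)

theorem mc_eq (hc : S_C1B) {q : ℕ} {P : Finset ℕ} (hq : Qr q) (hP : ∀ p ∈ P, Sp p) {d : ℕ}
    (hd : Nat.Coprime d (q * pr P)) : MC d (q * pr P) =
      ∑ T ∈ (range (d * (q * pr P))).filter (fun T => Odd T ∧ 7 ∣ T), WN d q P T := by
  unfold MC WN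
  refine Finset.sum_congr rfl fun T hT => ?_
  refine Finset.sum_congr rfl fun a ha => ?_
  refine Finset.sum_congr rfl fun a' ha' => ?_
  have hT1 : T < d * (q * pr P) := Finset.mem_range.1 (Finset.mem_filter.1 hT).1
  have h3 : a ∣ d * (q * pr P) - T := Nat.dvd_of_mem_divisors (Finset.mem_filter.1 ha).1
  have h4 : a' ∣ T := Nat.dvd_of_mem_divisors (Finset.mem_filter.1 ha').1
  refine hc q P hq hP d hd a a' (T / a') ((d * (q * pr P) - T) / a) ?_
  rw [Nat.mul_div_cancel' h3, Nat.mul_div_cancel' h4]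
  omega

theorem sb_eq {n n2 N : ℕ} (h12 : n * n2 = N ^ 2) (hN : N % 2 = 1) (r : ZMod 7)
    (hr : r = (N : ZMod 7)) (ε : ℤ) (hε : (4 : ℤ) ∣ N - 2 - ε) :
    ∑ T ∈ (range N).filter (fun T => Odd T ∧ 7 ∣ T), loc n (4 * (N - T) * T) = SB n n2 r ε := by
  have h12' : (n : ℤ) * n2 = (N : ℤ) ^ 2 := by exact_mod_cast h12
  have hN1 : (1 : ℤ) ≤ (N : ℤ) := by
    have : 1 ≤ N := by omega
    exact_mod_cast this
  have h7 : ∀ b : ℤ, (b : ZMod 7) = r ↔ (7 : ℤ) ∣ (N : ℤ) - b := by
    intro b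
    rw [hr]
    have h := ZMod.intCast_eq_intCast_iff_dvd_sub b (N : ℤ) 7
    push_cast at h
    exact h
  unfold SB
  refine Finset.sum_nbij (fun T : ℕ => (N : ℤ) - 2 * T) ?_ ?_ ?_ ?_
  · intro T hT
    rw [mem_filter, mem_range] at hT
    obtain ⟨h1, ⟨k, hk⟩, l, hl⟩ := hT
    have h1' : (T : ℤ) < (N : ℤ) := by exact_mod_cast h1
    have h2' : (0 : ℤ) < T := by
      have : 0 < T := by omega
      exact_mod_cast this
    rw [mem_filter, mem_Ioo, h12']
    refine ⟨⟨by nlinarith, by nlinarith⟩, by omega, ?_, by nlinarith⟩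
    rw [h7]
    refine ⟨2 * l, ?_⟩
    rw [hl]
    push_cast
    ring
  · intro T _ T' _ h
    have h' : (N : ℤ) - 2 * (T : ℤ) = (N : ℤ) - 2 * (T' : ℤ) := h
    omega
  · intro b hb
    rw [mem_coe, mem_filter, mem_Ioo, h12'] at hb
    obtain ⟨-, h4, h8, hd⟩ := hb
    rw [h7] at h8
    have hb1 : b < (N : ℤ) := by nlinarith
    have hb2 : -(N : ℤ) < b := by nlinarith
    refine ⟨(((N : ℤ) - b) / 2).toNat, ?_, ?_⟩
    · rw [mem_coe, mem_filter, mem_range]
      refine ⟨by omega, ?_, by omega⟩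
      rw [Nat.odd_iff]
      omega
    · change (N : ℤ) - 2 * (((((N : ℤ) - b) / 2).toNat : ℕ) : ℤ) = b
      omega
  · intro T hT
    rw [mem_filter, mem_range] at hT
    obtain ⟨h1, -, -⟩ := hT
    have h3 : (n : ℤ) * n2 - ((N : ℤ) - 2 * T) ^ 2 = ((4 * (N - T) * T : ℕ) : ℤ) := by
      rw [Nat.cast_mul, Nat.cast_mul, Nat.cast_sub h1.le, h12']
      push_cast
      ring
    rw [h3, Int.toNat_natCast]

theorem third {n : ℕ} (hn : n % 2 = 1) (J : ℤ) (F : ℕ → ℤ) :
    ∑ T ∈ (range (3 * n)).filter (fun T => Odd T ∧ 7 ∣ T), (if 3 ∣ T then J * F (T / 3) else 0) =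
      J * ∑ T ∈ (range n).filter (fun T => Odd T ∧ 7 ∣ T), F T := by
  rw [← Finset.sum_filter, Finset.mul_sum]
  symm
  refine Finset.sum_nbij (fun T : ℕ => 3 * T) ?_ ?_ ?_ ?_
  · intro T hT
    rw [mem_filter, mem_range] at hT
    obtain ⟨h1, h3, h4⟩ := hT
    rw [Nat.odd_iff] at h3
    rw [mem_filter, mem_filter, mem_range, Nat.odd_iff]
    refine ⟨⟨by omega, by omega, by omega⟩, by omega⟩
  · intro T _ T' _ h
    have h' : 3 * T = 3 * T' := h
    omega
  · intro T hT
    rw [mem_coe, mem_filter, mem_filter, mem_range, Nat.odd_iff] at hT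
    obtain ⟨⟨h1, h3, h4⟩, h5⟩ := hT
    refine ⟨T / 3, ?_, by show 3 * (T / 3) = T; omega⟩
    rw [mem_coe, mem_filter, mem_range, Nat.odd_iff]
    refine ⟨by omega, by omega, by omega⟩
  · intro T _
    show J * F T = J * F (3 * T / 3)
    rw [Nat.mul_div_cancel_left T (by norm_num)]

theorem pr_mod8 {P : Finset ℕ} (hP : ∀ p ∈ P, Sp p) : pr P % 8 = 1 := by
  unfold pr
  refine Finset.prod_induction _ (fun x : ℕ => x % 8 = 1) ?_ rfl ?_
  · intro a b ha hb
    rw [Nat.mul_mod, ha, hb]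
  · intro p hp
    exact (hP p hp).2.1

theorem pr_sqf {D : Finset ℕ} (hD : ∀ p ∈ D, p.Prime) : Squarefree (pr D) := by
  classical
  induction D using Finset.induction_on with
  | empty => exact squarefree_one
  | insert a s ha ih =>
    have h1 : pr (insert a s) = a * pr s := by
      unfold pr
      rw [Finset.prod_insert ha]
    have hs : ∀ p ∈ s, p.Prime := fun p hp => hD p (Finset.mem_insert_of_mem hp)
    have hpa := hD a (Finset.mem_insert_self a s)
    have hna : ¬ a ∣ pr s := by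
      intro h
      unfold pr at h
      rw [hpa.prime.dvd_finsetProd_iff] at h
      obtain ⟨q, hq, h5⟩ := h
      have := (Nat.prime_dvd_prime_iff_eq hpa (hs q hq)).1 h5
      exact ha (this ▸ hq)
    rw [h1, Nat.squarefree_mul ((Nat.Prime.coprime_iff_not_dvd hpa).2 hna)]
    exact ⟨hpa.squarefree, ih hs⟩

theorem sq7_sq {p : ℕ} (hp : Sp p) : sq7 p * sq7 p = (p : ZMod 7) := by
  have h : (p : ZMod 7) = ((p % 7 : ℕ) : ZMod 7) := (ZMod.natCast_mod p 7).symm
  unfold sq7
  rcases hp.2.2 with h1 | h1 | h1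
  · rw [h, h1]
    decide
  · rw [h, h1]
    decide
  · rw [h, h1]
    decide

theorem cq_sq {q : ℕ} (hq : Qr q) : cq q * cq q = -(q : ZMod 7) := by
  have h : (q : ZMod 7) = ((q % 7 : ℕ) : ZMod 7) := (ZMod.natCast_mod q 7).symm
  unfold cq
  rcases hq.2.2 with h1 | h1 | h1
  · rw [h, h1]
    decide
  · rw [h, h1]
    decide
  · rw [h, h1]
    decide

theorem bq_sq {q : ℕ} {P : Finset ℕ} (hq : Qr q) (hP : ∀ p ∈ P, Sp p) :
    bq q P * bq q P = -((q * pr P : ℕ) : ZMod 7) := by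
  have h1 : (∏ p ∈ P, sq7 p) * (∏ p ∈ P, sq7 p) = (pr P : ZMod 7) := by
    unfold pr
    rw [Nat.cast_prod, ← Finset.prod_congr rfl (fun p hp => sq7_sq (hP p hp)),
      Finset.prod_mul_distrib]
  have h2 := cq_sq hq
  unfold bq
  push_cast
  linear_combination (∏ p ∈ P, sq7 p) * (∏ p ∈ P, sq7 p) * h2 - (q : ZMod 7) * h1

instance fact7 : Fact (Nat.Prime 7) := ⟨by norm_num⟩

theorem n_ne {q : ℕ} {P : Finset ℕ} (hq : Qr q) (hP : ∀ p ∈ P, Sp p) :
    ((q * pr P : ℕ) : ZMod 7) ≠ 0 := by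
  have h0 : ∀ x : ℕ, x % 7 ≠ 0 → (x : ZMod 7) ≠ 0 := by
    intro x hx h
    rw [ZMod.natCast_eq_zero_iff] at h
    omega
  push_cast
  refine mul_ne_zero (h0 _ (by have := hq.2.2; omega)) ?_
  unfold pr
  rw [Nat.cast_prod]
  refine Finset.prod_ne_zero_iff.2 fun p hp => h0 _ (by have := (hP p hp).2.2; omega)

theorem t_DIAG (hb : S_BIL) (h3 : S_H3) (ha : S_C1A) (ha3 : S_C1A3) (h1 : S_C1B) (h2 : S_C2)
    (h23 : S_C23) : S_DIAG := by
  classical
  intro q P hq hq3 hP
  have hpp : ∀ p ∈ P, p.Prime := fun p hp => (hP p hp).1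
  have hqP : q ∉ P := by
    intro h
    have h1 := (hP q h).2.1
    have h3 := hq.2.1
    omega
  have k1 := ha q P hq hP
  have k3 := ha3 q P hq hP
  have b1 := bq_sq hq hP
  have hn0 := n_ne hq hP
  have m1 := mc_eq h1 hq hP (d := 1) (Nat.coprime_one_left _)
  have hcop3 : Nat.Coprime 3 (q * pr P) := by
    rw [Nat.coprime_mul_iff_right]
    refine ⟨(Nat.coprime_primes Nat.prime_three hq.1).2 (Ne.symm hq3), ?_⟩
    unfold pr
    refine Nat.Coprime.prod_right fun p hp => ?_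
    rw [Nat.coprime_primes Nat.prime_three (hpp p hp)]
    intro h
    have := (hP p hp).2.1
    omega
  have m3 := mc_eq h1 hq hP (d := 3) hcop3
  have e1 : ∑ T ∈ (range (1 * (q * pr P))).filter (fun T => Odd T ∧ 7 ∣ T), WN 1 q P T =
      ∑ T ∈ (range (q * pr P)).filter (fun T => Odd T ∧ 7 ∣ T),
        loc (q * pr P) (4 * (q * pr P - T) * T) := by
    rw [one_mul]
    refine Finset.sum_congr rfl fun T hT => ?_
    rw [mem_filter, mem_range] at hT
    exact h2 q P hq hP T hT.2.1 hT.2.2 hT.1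
  have e3 : ∑ T ∈ (range (3 * (q * pr P))).filter (fun T => Odd T ∧ 7 ∣ T), WN 3 q P T =
      ∑ T ∈ (range (3 * (q * pr P))).filter (fun T => Odd T ∧ 7 ∣ T),
        loc (q * pr P) (4 * (3 * (q * pr P) - T) * T) +
      ∑ T ∈ (range (3 * (q * pr P))).filter (fun T => Odd T ∧ 7 ∣ T),
        (if 3 ∣ T then jacobiSym 3 (q * pr P) *
          (fun t => loc (q * pr P) (4 * (q * pr P - t) * t)) (T / 3) else 0) := by
    rw [← Finset.sum_add_distrib]
    refine Finset.sum_congr rfl fun T hT => ?_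
    rw [mem_filter, mem_range] at hT
    exact h23 q P hq hq3 hP T hT.2.1 hT.2.2 hT.1
  have hpr8 := pr_mod8 hP
  have hsqf : Squarefree (q * pr P) := by
    have h4 : pr (insert q P) = q * pr P := Finset.prod_insert hqP
    rw [← h4]
    refine pr_sqf fun p hp => ?_
    rcases Finset.mem_insert.1 hp with rfl | h
    · exact hq.1
    · exact hpp p h
  have hn8 : (q * pr P) % 8 = 3 := by
    rw [Nat.mul_mod, hpr8, hq.2.1]
  have h9 : ¬ 9 ∣ q * pr P := by
    intro h
    have h5 : 3 ∣ q * pr P := Dvd.dvd.trans (by norm_num) h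
    have h6 : 3 ∣ Nat.gcd 3 (q * pr P) := Nat.dvd_gcd dvd_rfl h5
    rw [hcop3] at h6
    omega
  generalize hn : q * pr P = n at *
  generalize hβ : bq q P = β at *
  have hβ0 : β ≠ 0 := by
    rintro rfl
    apply hn0
    have : (n : ZMod 7) = - (-(n : ZMod 7)) := by ring
    rw [this, ← b1]
    ring
  have f1 := sb_eq (n := n) (n2 := n) (N := n) (by ring) (by omega) (-(β * β))
    (by rw [b1]; ring) 1 (by omega)
  have f3 := sb_eq (n := n) (n2 := 9 * n) (N := 3 * n) (by ring) (by omega) (-(β * (3 * β)))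
    (by push_cast; linear_combination (-3 : ZMod 7) * b1) (-1) (by push_cast; omega)
  have g3 := third (n := n) (by omega) (jacobiSym 3 n) (fun t => loc n (4 * (n - t) * t))
  rw [e1, f1] at m1
  rw [e3, f3, g3, f1] at m3
  have B1 := hb n n hsqf hn8 hn8 β β hβ0 hβ0 (by rw [sq, b1]) (by rw [sq, b1]) 1 (Or.inl rfl)
    (by
      intro b hb4 hb7 hbn
      have h5 : (b - n) * (b + n) = 0 := by linear_combination hbn
      rcases mul_eq_zero.1 h5 with h6 | h6
      · have : b = n := by linarith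
        subst this
        omega
      · have : b = -n := by linarith
        subst this
        rw [b1] at hb7
        push_cast at hb7
        apply hn0
        have h7 : (2 : ZMod 7) * n = 0 := by linear_combination -hb7
        rcases mul_eq_zero.1 h7 with h8 | h8
        · exact absurd h8 (by decide)
        · exact h8)
  have h9n8 : (9 * n) % 8 = 3 := by omega
  have hβ3 : (3 : ZMod 7) * β ≠ 0 := mul_ne_zero (by decide) hβ0
  have B3 := hb n (9 * n) hsqf hn8 h9n8 β (3 * β) hβ0 hβ3 (by rw [sq, b1])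
    (by push_cast; linear_combination (9 : ZMod 7) * b1) (-1) (Or.inr rfl)
    (by
      intro b hb4 hb7 hbn
      push_cast at hbn
      have h5 : (b - 3 * n) * (b + 3 * n) = 0 := by linear_combination hbn
      rcases mul_eq_zero.1 h5 with h6 | h6
      · have : b = 3 * n := by linarith
        subst this
        omega
      · have : b = -(3 * n) := by linarith
        subst this
        push_cast at hb7
        apply hn0
        have h7 : (6 : ZMod 7) * n = 0 := by linear_combination (-1 : ZMod 7) * hb7 + 3 * b1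
        rcases mul_eq_zero.1 h7 with h8 | h8
        · exact absurd h8 (by decide)
        · exact h8)
  obtain ⟨H1, H2⟩ := h3 n hn8 h9 β hβ0
  have hJ : jacobiSym (-(n : ℤ)) 3 = jacobiSym 3 n := by
    have h5 : jacobiSym ((3 : ℕ) : ℤ) n = -jacobiSym n ((3 : ℕ) : ℤ).natAbs :=
      jacobiSym.quadratic_reciprocity_three_mod_four (by norm_num) (by omega)
    have h6 : jacobiSym (-(n : ℤ)) 3 = jacobiSym (-1) 3 * jacobiSym n 3 := by
      rw [← jacobiSym.mul_left]
      congr 1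
      ring
    have h7 : jacobiSym (-1) 3 = -1 := by
      rw [jacobiSym.at_neg_one (by decide)]
      decide
    rw [h6, h7]
    have h8 : jacobiSym (3 : ℤ) n = -jacobiSym n 3 := h5
    rw [h8]
    ring
  rw [hJ] at H1 H2
  have G : ∑ u ∈ un n, jacobiSym u n * Gm u ((n : ℕ) : ℤ) =
      ∑ u ∈ un n, jacobiSym u n * (Fs 3 17 u (n : ℤ) - Fs 3 11 u (n : ℤ)) -
      3 * ∑ u ∈ un n, jacobiSym u n * (Fs 1 15 u (n : ℤ) - Fs 1 13 u (n : ℤ)) := by
    rw [Finset.mul_sum, ← Finset.sum_sub_distrib]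
    refine Finset.sum_congr rfl fun u _ => ?_
    unfold Gm
    ring
  rw [G, k1, k3, m1, m3]
  rw [H1, H2] at B3
  set t := t0 (n : ℤ) β
  set g := g0 (n : ℤ) β
  set J := jacobiSym 3 n
  set S1 := SB n n (-(β * β)) 1
  set S9 := SB n (9 * n) (-(β * (3 * β))) (-1)
  refine mul_left_cancel₀ (by norm_num : (6 : ℤ) ≠ 0) ?_
  linear_combination (-2 : ℤ) * B3 - (2 * J - 8) * B1

end Pool.Agent.Y620.N.D
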